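import Mathlib

/-!
Shared definitions for MP_5eb27c_an (packing Haar null Borel sets into open sets).
-/

open scoped Pointwise

namespace H5eb

/-- `E` can be cut into countably many measurable pieces `A i`, which left translations `g i`
move onto pairwise disjoint subsets of `U`. -/
def Pack {G : Type*} [Group G] [MeasurableSpace G] (E U : Set G) : Prop :=
  ∃ (A : ℕ → Set G) (g : ℕ → G), (∀ i, MeasurableSet (A i)) ∧
    Pairwise (Function.onFun Disjoint A) ∧ (⋃ i, A i) = E ∧
    Pairwise (Function.onFun Disjoint fun i => g i • A i) ∧ ∀ i, g i • A i ⊆ U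

end H5eb
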