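import Mathlib

/-!
Abstract part for MP_5eb27c_an: integer valued Borel transport plans for a countable group
acting measurably on a measurable space, comparison of sets, and the dichotomy between
packing and the existence of a finitely additive invariant set function.
-/

open scoped Pointwise ENNReal
open MeasureTheory Set Function

namespace H5eb

open Classical in
/-- indicator of a set, with values in the natural numbers. -/
noncomputable def ind {X : Type*} (A : Set X) (x : X) : ℕ := if x ∈ A then 1 else 0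

section basic
variable {X : Type*}

lemma ind_of_mem {A : Set X} {x : X} (h : x ∈ A) : ind A x = 1 := by simp [ind, h]
lemma ind_of_notMem {A : Set X} {x : X} (h : x ∉ A) : ind A x = 0 := by simp [ind, h]
lemma ind_le_one (A : Set X) (x : X) : ind A x ≤ 1 := by unfold ind; split_ifs <;> simp
lemma mem_of_ind_pos {A : Set X} {x : X} (h : 0 < ind A x) : x ∈ A := by
  by_contra hx; simp [ind_of_notMem hx] at h
lemma measurable_ind [MeasurableSpace X] {A : Set X} (hA : MeasurableSet A) :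
    Measurable (ind A) := by
  unfold ind
  exact Measurable.ite hA measurable_const measurable_const

/-- rank: number of earlier sets containing the point. -/
noncomputable def rank (D : ℕ → Set X) (n : ℕ) (y : X) : ℕ := ∑ k ∈ Finset.range n, ind (D k) y

lemma measurable_rank [MeasurableSpace X] {D : ℕ → Set X} (hD : ∀ n, MeasurableSet (D n)) (n : ℕ) :
    Measurable (rank D n) := by
  unfold rank
  exact Finset.measurable_fun_sum _ fun i _ => measurable_ind (hD i)

lemma rank_succ (D : ℕ → Set X) (n : ℕ) (y : X) : rank D (n + 1) y = rank D n y + ind (D n) y := by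
  simp [rank, Finset.sum_range_succ]

lemma rank_mono (D : ℕ → Set X) (y : X) : Monotone fun n => rank D n y := by
  refine monotone_nat_of_le_succ fun n => ?_
  rw [rank_succ]; omega

lemma rank_inj {D : ℕ → Set X} {y : X} {n m : ℕ} (hn : y ∈ D n) (hm : y ∈ D m)
    (h : rank D n y = rank D m y) : n = m := by
  by_contra hne
  rcases Nat.lt_or_gt_of_ne hne with hlt | hlt
  · have h1 := rank_mono D y (Nat.succ_le_of_lt hlt)
    simp only [Nat.succ_eq_add_one, rank_succ, ind_of_mem hn] at h1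
    omega
  · have h1 := rank_mono D y (Nat.succ_le_of_lt hlt)
    simp only [Nat.succ_eq_add_one, rank_succ, ind_of_mem hm] at h1
    omega

lemma rank_le_tsum (D : ℕ → Set X) (n : ℕ) (y : X) :
    (rank D n y : ℝ≥0∞) ≤ ∑' k, (ind (D k) y : ℝ≥0∞) := by
  unfold rank
  rw [Nat.cast_sum]
  exact ENNReal.sum_le_tsum _

lemma rank_lt {D : ℕ → Set X} {y : X} {n N : ℕ} (hn : y ∈ D n)
    (h : ∑' k, (ind (D k) y : ℝ≥0∞) ≤ N) : rank D n y < N := by
  have h1 := (rank_le_tsum D (n + 1) y).trans h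
  rw [rank_succ, ind_of_mem hn] at h1
  exact_mod_cast h1

lemma exists_rank {D : ℕ → Set X} {y : X} {r : ℕ}
    (h : ((r + 1 : ℕ) : ℝ≥0∞) ≤ ∑' k, (ind (D k) y : ℝ≥0∞)) : ∃ m, y ∈ D m ∧ rank D m y = r := by
  have h1 : ∃ K, r < rank D K y := by
    by_contra hcon
    push Not at hcon
    have h2 : ∑' k, (ind (D k) y : ℝ≥0∞) ≤ r := by
      rw [ENNReal.tsum_eq_iSup_nat]
      refine iSup_le fun K => ?_
      have := hcon K
      unfold rank at this
      rw [← Nat.cast_sum]
      exact_mod_cast this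
    have h3 := h.trans h2
    have h4 : r + 1 ≤ r := by exact_mod_cast h3
    omega
  have h5 := Nat.find_spec h1
  have h6 : Nat.find h1 ≠ 0 := by
    intro h0
    rw [h0] at h5
    simp [rank] at h5
  obtain ⟨m, hm⟩ := Nat.exists_eq_succ_of_ne_zero h6
  have h7 : ¬ r < rank D m y := Nat.find_min h1 (by omega)
  rw [hm, Nat.succ_eq_add_one, rank_succ] at h5
  have h8 := ind_le_one (D m) y
  refine ⟨m, mem_of_ind_pos ?_, ?_⟩ <;> omega

end basic

/-- `f ≼ g`: the points of `X`, with multiplicity `f`, can be moved by countably many measurable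
pieces and group elements injectively into the points of `X` with multiplicity `g`. -/
def LE (Γ : Type*) {X : Type*} [Group Γ] [MulAction Γ X] [MeasurableSpace X] (f g : X → ℕ) : Prop :=
  ∃ (A : ℕ → Set X) (γ : ℕ → Γ), (∀ n, MeasurableSet (A n)) ∧
    (∀ x, (f x : ℝ≥0∞) ≤ ∑' n, (ind (A n) x : ℝ≥0∞)) ∧
    ∀ y, ∑' n, (ind (γ n • A n) y : ℝ≥0∞) ≤ g y

section LE
variable {Γ X : Type*} [Group Γ] [MulAction Γ X] [MeasurableSpace X]

lemma LE.of_index {ι : Type*} [Countable ι] {f g : X → ℕ} (A : ι → Set X) (γ : ι → Γ)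
    (hA : ∀ i, MeasurableSet (A i)) (hf : ∀ x, (f x : ℝ≥0∞) ≤ ∑' i, (ind (A i) x : ℝ≥0∞))
    (hg : ∀ y, ∑' i, (ind (γ i • A i) y : ℝ≥0∞) ≤ g y) : LE Γ f g := by
  obtain ⟨e, he⟩ := exists_injective_nat ι
  have key : ∀ (B : ι → Set X) (z : X), ∑' n, (ind (extend e B (fun _ => ∅) n) z : ℝ≥0∞) =
      ∑' i, (ind (B i) z : ℝ≥0∞) := by
    intro B z
    rw [← tsum_extend_zero he]
    congr 1
    funext n
    by_cases hn : ∃ i, e i = n
    · obtain ⟨i, rfl⟩ := hn
      rw [he.extend_apply, he.extend_apply]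
    · rw [extend_apply' _ _ _ hn, extend_apply' _ _ _ hn]
      simp [ind]
  refine ⟨extend e A (fun _ => ∅), extend e γ (fun _ => 1), ?_, ?_, ?_⟩
  · intro n
    by_cases hn : ∃ i, e i = n
    · obtain ⟨i, rfl⟩ := hn
      rw [he.extend_apply]; exact hA i
    · rw [extend_apply' _ _ _ hn]; exact MeasurableSet.empty
  · intro x
    rw [key]; exact hf x
  · intro y
    have h1 : (fun n => extend e γ (fun _ => (1 : Γ)) n • extend e A (fun _ => (∅ : Set X)) n) =
        extend e (fun i => γ i • A i) (fun _ => ∅) := by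
      funext n
      by_cases hn : ∃ i, e i = n
      · obtain ⟨i, rfl⟩ := hn
        simp only [he.extend_apply]
      · simp only [extend_apply' _ _ _ hn, smul_set_empty]
    have h2 := key (fun i => γ i • A i) y
    rw [← h1] at h2
    rw [h2]
    exact hg y

lemma LE.of_le {f g : X → ℕ} (hf : Measurable f) (h : ∀ x, f x ≤ g x) : LE Γ f g := by
  have key : ∀ x, ∑' n, (ind {x | n < f x} x : ℝ≥0∞) = f x := by
    intro x
    rw [tsum_eq_sum (s := Finset.range (f x))]
    · rw [Finset.sum_congr rfl (g := fun _ => (1 : ℝ≥0∞))]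
      · simp
      · intro n hn
        rw [ind_of_mem (by simpa using hn)]
        simp
    · intro n hn
      rw [ind_of_notMem (by simpa using hn)]
      simp
  refine ⟨fun n => {x | n < f x}, fun _ => 1, fun n => measurableSet_lt measurable_const hf, ?_, ?_⟩
  · intro x
    rw [key]
  · intro y
    simp only [one_smul]
    rw [key]
    exact_mod_cast h y

lemma LE.refl {f : X → ℕ} (hf : Measurable f) : LE Γ f f := LE.of_le hf fun _ => le_rfl

lemma LE.mono_left {f f' g : X → ℕ} (h : LE Γ f g) (h' : ∀ x, f' x ≤ f x) : LE Γ f' g := by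
  obtain ⟨A, γ, hA, hf, hg⟩ := h
  exact ⟨A, γ, hA, fun x => (by exact_mod_cast h' x : (f' x : ℝ≥0∞) ≤ f x).trans (hf x), hg⟩

lemma LE.mono_right {f g g' : X → ℕ} (h : LE Γ f g) (h' : ∀ x, g x ≤ g' x) : LE Γ f g' := by
  obtain ⟨A, γ, hA, hf, hg⟩ := h
  exact ⟨A, γ, hA, hf, fun x => (hg x).trans (by exact_mod_cast h' x)⟩

lemma LE.add {f g f' g' : X → ℕ} (h : LE Γ f g) (h' : LE Γ f' g') :
    LE Γ (fun x => f x + f' x) (fun x => g x + g' x) := by
  obtain ⟨A, γ, hA, hf, hg⟩ := h
  obtain ⟨A', γ', hA', hf', hg'⟩ := h'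
  refine LE.of_index (ι := Bool × ℕ) (fun p => if p.1 then A p.2 else A' p.2)
    (fun p => if p.1 then γ p.2 else γ' p.2) ?_ ?_ ?_
  · rintro ⟨b, n⟩
    cases b <;> simp [hA, hA']
  · intro x
    rw [ENNReal.tsum_prod', tsum_bool]
    push_cast
    simp only [if_true]
    rw [add_comm]
    exact add_le_add (hf' x) (hf x)
  · intro y
    rw [ENNReal.tsum_prod', tsum_bool]
    push_cast
    simp only [if_true]
    rw [add_comm (g y : ℝ≥0∞)]
    exact add_le_add (hg' y) (hg y)

lemma LE.sum {ι : Type*} (s : Finset ι) {f g : ι → X → ℕ} (h : ∀ i ∈ s, LE Γ (f i) (g i)) :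
    LE Γ (fun x => ∑ i ∈ s, f i x) (fun x => ∑ i ∈ s, g i x) := by
  classical
  induction s using Finset.induction_on with
  | empty =>
    simp only [Finset.sum_empty]
    exact LE.refl measurable_const
  | insert a s ha ih =>
    simp only [Finset.sum_insert ha]
    exact (h a (Finset.mem_insert_self a s)).add
      (ih fun i hi => h i (Finset.mem_insert_of_mem hi))

lemma LE.mul {f g : X → ℕ} (k : ℕ) (h : LE Γ f g) : LE Γ (fun x => k * f x) (fun x => k * g x) := by
  induction k with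
  | zero =>
    simp only [zero_mul]
    exact LE.refl measurable_const
  | succ k ih =>
    simp only [add_mul, one_mul]
    exact ih.add h


omit [MeasurableSpace X] in
lemma tsum_ind_le_one {ι : Type*} {D : ι → Set X} {y : X}
    (h : ∀ n m, y ∈ D n → y ∈ D m → n = m) : ∑' n, (ind (D n) y : ℝ≥0∞) ≤ 1 := by
  by_cases hex : ∃ n, y ∈ D n
  · obtain ⟨n, hn⟩ := hex
    rw [tsum_eq_single n]
    · exact_mod_cast ind_le_one _ _
    · intro m hm
      rw [ind_of_notMem fun h' => hm (h m n h' hn)]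
      simp
  · push Not at hex
    rw [ENNReal.tsum_eq_zero.2]
    · exact zero_le
    · intro n
      rw [ind_of_notMem (hex n)]
      simp

omit [MeasurableSpace X] in
lemma tsum_ind_le {ι : Type*} {D : ι → Set X} {B : Set X} {y : X}
    (h : ∀ n m, y ∈ D n → y ∈ D m → n = m) (h' : ∀ n, y ∈ D n → y ∈ B) :
    ∑' n, (ind (D n) y : ℝ≥0∞) ≤ ind B y := by
  by_cases hB : y ∈ B
  · rw [ind_of_mem hB]
    simpa using tsum_ind_le_one h
  · rw [ENNReal.tsum_eq_zero.2]
    · exact zero_le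
    · intro n
      rw [ind_of_notMem fun h'' => hB (h' n h'')]
      simp

omit [MeasurableSpace X] in
lemma one_le_tsum_ind {ι : Type*} {D : ι → Set X} {y : X} (h : ∃ n, y ∈ D n) :
    (1 : ℝ≥0∞) ≤ ∑' n, (ind (D n) y : ℝ≥0∞) := by
  obtain ⟨n, hn⟩ := h
  refine le_trans ?_ (ENNReal.le_tsum n)
  rw [ind_of_mem hn]
  simp

omit [MeasurableSpace X] in
lemma ind_le_tsum_ind {ι : Type*} {D : ι → Set X} {A : Set X} {y : X} (h : y ∈ A → ∃ n, y ∈ D n) :
    (ind A y : ℝ≥0∞) ≤ ∑' n, (ind (D n) y : ℝ≥0∞) := by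
  by_cases hA : y ∈ A
  · rw [ind_of_mem hA]
    simpa using one_le_tsum_ind (h hA)
  · rw [ind_of_notMem hA]
    simp

lemma LE.of_inj {ι : Type*} [Countable ι] {A B : Set X} (P : ι → Set X) (e : ι → Γ)
    (hP : ∀ i, MeasurableSet (P i)) (hcov : ∀ x ∈ A, ∃ i, x ∈ P i)
    (hinj : ∀ y n m, y ∈ e n • P n → y ∈ e m • P m → n = m)
    (hmap : ∀ n, ∀ y ∈ e n • P n, y ∈ B) : LE Γ (ind A) (ind B) :=
  LE.of_index P e hP (fun x => ind_le_tsum_ind (hcov x))
    fun y => tsum_ind_le (hinj y) fun n h => hmap n y h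

variable [MeasurableConstSMul Γ X]

lemma LE.trans {f g h : X → ℕ} (h1 : LE Γ f g) (h2 : LE Γ g h) : LE Γ f h := by
  obtain ⟨A, γ, hA, hf, hg⟩ := h1
  obtain ⟨B, δ, hB, hg', hh⟩ := h2
  set D : ℕ → Set X := fun n => γ n • A n with hD
  have hDm : ∀ n, MeasurableSet (D n) := fun n => (hA n).const_smul _
  set C : ℕ × ℕ → Set X := fun p => D p.1 ∩ B p.2 ∩ {y | rank D p.1 y = rank B p.2 y} with hC
  have hCm : ∀ p, MeasurableSet (C p) := fun p =>
    ((hDm _).inter (hB _)).inter (measurableSet_eq_fun (measurable_rank hDm _) (measurable_rank hB _))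
  refine LE.of_index (ι := ℕ × ℕ) (fun p => (γ p.1)⁻¹ • C p) (fun p => δ p.2 * γ p.1)
    (fun p => (hCm p).const_smul _) ?_ ?_
  · intro x
    rw [ENNReal.tsum_prod']
    refine (hf x).trans (ENNReal.tsum_le_tsum fun n => ind_le_tsum_ind fun hx => ?_)
    have hy : γ n • x ∈ D n := smul_mem_smul_set hx
    have h3 := rank_lt hy (hg _)
    obtain ⟨m, hm, hr⟩ := exists_rank (D := B) (y := γ n • x) (r := rank D n (γ n • x))
      (le_trans (by exact_mod_cast h3) (hg' _))
    refine ⟨m, ?_⟩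
    rw [mem_inv_smul_set_iff]
    exact ⟨⟨hy, hm⟩, hr.symm⟩
  · intro z
    rw [ENNReal.tsum_prod', ENNReal.tsum_comm]
    refine le_trans (ENNReal.tsum_le_tsum fun m => ?_) (hh z)
    have h3 : ∀ n, (δ m * γ n) • (γ n)⁻¹ • C (n, m) = δ m • C (n, m) := by
      intro n
      rw [mul_smul, smul_inv_smul]
    simp only [h3]
    refine tsum_ind_le ?_ ?_
    · intro n n' hn hn'
      rw [mem_smul_set_iff_inv_smul_mem] at hn hn'
      refine rank_inj (D := D) (y := (δ m)⁻¹ • z) hn.1.1 hn'.1.1 ?_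
      have e1 : rank D n ((δ m)⁻¹ • z) = rank B m ((δ m)⁻¹ • z) := hn.2
      have e2 : rank D n' ((δ m)⁻¹ • z) = rank B m ((δ m)⁻¹ • z) := hn'.2
      rw [e1, e2]
    · intro n hn
      rw [mem_smul_set_iff_inv_smul_mem] at hn ⊢
      exact hn.1.2

omit [MeasurableConstSMul Γ X] in
lemma LE.smul_right {A : Set X} (hA : MeasurableSet A) (γ : Γ) :
    LE Γ (ind A) (ind (γ • A)) := by
  refine LE.of_inj (ι := Unit) (fun _ => A) (fun _ => γ) (fun _ => hA) (fun x hx => ⟨(), hx⟩)
    (fun _ _ _ _ _ => rfl) fun _ y hy => hy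

lemma LE.smul_left {A : Set X} (hA : MeasurableSet A) (γ : Γ) :
    LE Γ (ind (γ • A)) (ind A) := by
  refine LE.of_inj (ι := Unit) (fun _ => γ • A) (fun _ => γ⁻¹) (fun _ => hA.const_smul _)
    (fun x hx => ⟨(), hx⟩) (fun _ _ _ _ _ => rfl) fun _ y hy => ?_
  rwa [inv_smul_smul] at hy

/-- invariant sets -/
def Inv (Γ : Type*) {X : Type*} [Group Γ] [MulAction Γ X] (Z : Set X) : Prop :=
  ∀ (γ : Γ), ∀ x ∈ Z, γ • x ∈ Z

omit [MeasurableSpace X] [MeasurableConstSMul Γ X] in
lemma Inv.iff {Z : Set X} (h : Inv Γ Z) (γ : Γ) (x : X) : γ • x ∈ Z ↔ x ∈ Z := by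
  refine ⟨fun hx => ?_, h γ x⟩
  have := h γ⁻¹ _ hx
  rwa [inv_smul_smul] at this

omit [MeasurableSpace X] [MeasurableConstSMul Γ X] in
lemma Inv.compl {Z : Set X} (h : Inv Γ Z) : Inv Γ Zᶜ := by
  intro γ x hx h'
  exact hx ((h.iff γ x).1 h')

omit [MeasurableConstSMul Γ X] in
lemma LE.restrict {f g : X → ℕ} (h : LE Γ f g) {Z : Set X} (hZ : Inv Γ Z)
    (hZm : MeasurableSet Z) : LE Γ (fun x => ind Z x * f x) (fun x => ind Z x * g x) := by
  obtain ⟨A, γ, hA, hf, hg⟩ := h
  refine ⟨fun n => A n ∩ Z, γ, fun n => (hA n).inter hZm, ?_, ?_⟩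
  · intro x
    beta_reduce
    by_cases hx : x ∈ Z
    · rw [ind_of_mem hx]
      simp only [one_mul]
      refine (hf x).trans (ENNReal.tsum_le_tsum fun n => ?_)
      by_cases hx' : x ∈ A n
      · rw [ind_of_mem hx', ind_of_mem (show x ∈ A n ∩ Z from ⟨hx', hx⟩)]
      · rw [ind_of_notMem hx']; simp
    · rw [ind_of_notMem hx]; simp
  · intro y
    beta_reduce
    by_cases hy : y ∈ Z
    · rw [ind_of_mem hy]
      simp only [one_mul]
      refine le_trans (ENNReal.tsum_le_tsum fun n => ?_) (hg y)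
      by_cases hx' : y ∈ γ n • (A n ∩ Z)
      · have h2 : y ∈ γ n • A n := by
          rw [mem_smul_set_iff_inv_smul_mem] at hx' ⊢
          exact hx'.1
        rw [ind_of_mem hx', ind_of_mem h2]
      · rw [ind_of_notMem hx']; simp
    · rw [ENNReal.tsum_eq_zero.2]
      · exact zero_le
      · intro n
        rw [ind_of_notMem]
        · simp
        · intro h'
          rw [mem_smul_set_iff_inv_smul_mem] at h'
          exact hy ((hZ.iff _ _).1 h'.2)

end LE

end H5eb
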