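import Pool.Agent.H5eb.EqAbs

/-!
Comparison of measurable sets under a countable group, and absorption.
-/

open scoped Pointwise ENNReal
open MeasureTheory Set Function

namespace H5eb

variable {Γ X : Type*} [Group Γ] [MulAction Γ X] [MeasurableSpace X] [MeasurableConstSMul Γ X]

/-- the greedy construction -/
noncomputable def st (e : ℕ → Γ) (A B : Set X) : ℕ → Set X × Set X
  | 0 => (A, B)
  | n + 1 => ((st e A B n).1 \ {x ∈ (st e A B n).1 | e n • x ∈ (st e A B n).2},
      (st e A B n).2 \ (e n • {x ∈ (st e A B n).1 | e n • x ∈ (st e A B n).2}))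

/-- the points placed at stage `n` -/
def pl (e : ℕ → Γ) (A B : Set X) (n : ℕ) : Set X :=
  {x ∈ (st e A B n).1 | e n • x ∈ (st e A B n).2}

omit [MeasurableSpace X] [MeasurableConstSMul Γ X] in
lemma st_succ_fst (e : ℕ → Γ) (A B : Set X) (n : ℕ) :
    (st e A B (n + 1)).1 = (st e A B n).1 \ pl e A B n := rfl

omit [MeasurableSpace X] [MeasurableConstSMul Γ X] in
lemma st_succ_snd (e : ℕ → Γ) (A B : Set X) (n : ℕ) :
    (st e A B (n + 1)).2 = (st e A B n).2 \ (e n • pl e A B n) := rfl

lemma st_meas (e : ℕ → Γ) {A B : Set X} (hA : MeasurableSet A) (hB : MeasurableSet B) (n : ℕ) :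
    MeasurableSet (st e A B n).1 ∧ MeasurableSet (st e A B n).2 ∧ MeasurableSet (pl e A B n) := by
  induction n with
  | zero => exact ⟨hA, hB, hA.inter (measurable_const_smul (e 0) hB)⟩
  | succ n ih =>
    have h0 : MeasurableSet (pl e A B n) := ih.2.2
    have h1 : MeasurableSet (st e A B (n + 1)).1 := ih.1.diff h0
    have h2 : MeasurableSet (st e A B (n + 1)).2 := ih.2.1.diff (h0.const_smul _)
    exact ⟨h1, h2, h1.inter (measurable_const_smul (e (n + 1)) h2)⟩

omit [MeasurableSpace X] [MeasurableConstSMul Γ X] in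
lemma st_anti (e : ℕ → Γ) (A B : Set X) : Antitone fun n => (st e A B n).1 :=
  antitone_nat_of_succ_le fun n => by
    change (st e A B (n + 1)).1 ⊆ (st e A B n).1
    rw [st_succ_fst]; exact sdiff_subset

omit [MeasurableSpace X] [MeasurableConstSMul Γ X] in
lemma st_anti' (e : ℕ → Γ) (A B : Set X) : Antitone fun n => (st e A B n).2 :=
  antitone_nat_of_succ_le fun n => by
    change (st e A B (n + 1)).2 ⊆ (st e A B n).2
    rw [st_succ_snd]; exact sdiff_subset

omit [MeasurableSpace X] [MeasurableConstSMul Γ X] in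
lemma pl_inj (e : ℕ → Γ) (A B : Set X) (x : X) (n m : ℕ) (hn : x ∈ pl e A B n)
    (hm : x ∈ pl e A B m) : n = m := by
  have key : ∀ n m, n < m → x ∈ pl e A B n → x ∈ pl e A B m → False := by
    intro n m hlt hn hm
    have h1 : x ∈ (st e A B (n + 1)).1 := st_anti e A B (Nat.succ_le_of_lt hlt) hm.1
    rw [st_succ_fst] at h1
    exact h1.2 hn
  rcases lt_trichotomy n m with h | h | h
  · exact (key n m h hn hm).elim
  · exact h
  · exact (key m n h hm hn).elim

omit [MeasurableSpace X] [MeasurableConstSMul Γ X] in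
lemma smul_pl_sub (e : ℕ → Γ) (A B : Set X) (n : ℕ) : e n • pl e A B n ⊆ (st e A B n).2 := by
  rintro _ ⟨x, hx, rfl⟩
  exact hx.2

omit [MeasurableSpace X] [MeasurableConstSMul Γ X] in
lemma smul_pl_inj (e : ℕ → Γ) (A B : Set X) (y : X) (n m : ℕ) (hn : y ∈ e n • pl e A B n)
    (hm : y ∈ e m • pl e A B m) : n = m := by
  have key : ∀ n m, n < m → y ∈ e n • pl e A B n → y ∈ e m • pl e A B m → False := by
    intro n m hlt hn hm
    have h1 : y ∈ (st e A B (n + 1)).2 :=
      st_anti' e A B (Nat.succ_le_of_lt hlt) (smul_pl_sub e A B m hm)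
    rw [st_succ_snd] at h1
    exact h1.2 hn
  rcases lt_trichotomy n m with h | h | h
  · exact (key n m h hn hm).elim
  · exact h
  · exact (key m n h hm hn).elim

/-- Comparison: outside an invariant set `A` goes into `B`, inside `B` goes into `A`. -/
lemma comparison [Countable Γ] {A B : Set X} (hA : MeasurableSet A) (hB : MeasurableSet B) :
    ∃ Z : Set X, MeasurableSet Z ∧ Inv Γ Z ∧ LE Γ (ind (A \ Z)) (ind (B \ Z)) ∧
      LE Γ (ind (B ∩ Z)) (ind (A ∩ Z)) := by
  classical
  obtain ⟨e, he⟩ := exists_surjective_nat Γ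
  set R : Set X := ⋂ n, (st e A B n).1 with hR
  have hRm : MeasurableSet R := MeasurableSet.iInter fun n => (st_meas e hA hB n).1
  have hPm : ∀ n, MeasurableSet (pl e A B n) := fun n => (st_meas e hA hB n).2.2
  set Z : Set X := ⋃ γ : Γ, (fun x => γ • x) ⁻¹' R with hZ
  have hZm : MeasurableSet Z := MeasurableSet.iUnion fun γ => measurable_const_smul γ hRm
  have hZi : Inv Γ Z := by
    intro γ x hx
    rw [hZ, mem_iUnion] at hx ⊢
    obtain ⟨δ, hδ⟩ := hx
    refine ⟨δ * γ⁻¹, ?_⟩
    rw [mem_preimage] at hδ ⊢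
    rwa [mul_smul, inv_smul_smul]
  refine ⟨Z, hZm, hZi, ?_, ?_⟩
  · refine LE.of_inj (fun n => pl e A B n \ Z) e (fun n => (hPm n).diff hZm) ?_ ?_ ?_
    · intro x hx
      have h1 : ∃ n, x ∉ (st e A B n).1 := by
        by_contra hcon
        push Not at hcon
        refine hx.2 (mem_iUnion.2 ⟨1, ?_⟩)
        rw [mem_preimage, one_smul]
        exact mem_iInter.2 hcon
      have h5 := Nat.find_spec h1
      have h6 : Nat.find h1 ≠ 0 := by
        intro h0
        rw [h0] at h5
        exact h5 hx.1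
      obtain ⟨m, hm⟩ := Nat.exists_eq_succ_of_ne_zero h6
      have h7 : ¬ x ∉ (st e A B m).1 := Nat.find_min h1 (by omega)
      rw [not_not] at h7
      rw [hm, Nat.succ_eq_add_one, st_succ_fst] at h5
      refine ⟨m, ?_, hx.2⟩
      by_contra hcon
      exact h5 ⟨h7, hcon⟩
    · intro y n m hn hm
      exact smul_pl_inj e A B y n m (smul_set_mono sdiff_subset hn) (smul_set_mono sdiff_subset hm)
    · intro n y hy
      refine ⟨st_anti' e A B (Nat.zero_le n) (smul_pl_sub e A B n (smul_set_mono sdiff_subset hy)),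
        ?_⟩
      intro hyZ
      rw [mem_smul_set_iff_inv_smul_mem] at hy
      exact hy.2 (hZi _ _ hyZ)
  · have claim : ∀ y ∈ B ∩ Z, ∃ n, y ∈ e n • pl e A B n := by
      intro y hy
      by_contra hcon
      push Not at hcon
      have h1 : ∀ n, y ∈ (st e A B n).2 := by
        intro n
        induction n with
        | zero => exact hy.1
        | succ n ih =>
          rw [st_succ_snd]
          exact ⟨ih, hcon n⟩
      obtain ⟨γ, hγ⟩ := mem_iUnion.1 hy.2
      obtain ⟨n, hn⟩ := he γ⁻¹
      rw [mem_preimage] at hγ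
      have h2 : γ • y ∈ pl e A B n := by
        refine ⟨mem_iInter.1 hγ n, ?_⟩
        rw [hn, inv_smul_smul]
        exact h1 n
      have h3 := mem_iInter.1 hγ (n + 1)
      rw [st_succ_fst] at h3
      exact h3.2 h2
    have key : ∀ n z, z ∈ (e n)⁻¹ • (e n • pl e A B n ∩ Z) ↔ z ∈ pl e A B n ∧ e n • z ∈ Z := by
      intro n z
      rw [mem_inv_smul_set_iff, mem_inter_iff, smul_mem_smul_set_iff]
    refine LE.of_inj (fun n => e n • pl e A B n ∩ Z) (fun n => (e n)⁻¹)
      (fun n => ((hPm n).const_smul _).inter hZm) ?_ ?_ ?_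
    · intro y hy
      obtain ⟨n, hn⟩ := claim y hy
      exact ⟨n, hn, hy.2⟩
    · intro y n m hn hm
      rw [key] at hn hm
      exact pl_inj e A B y n m hn.1 hm.1
    · intro n y hy
      rw [key] at hy
      exact ⟨st_anti e A B (Nat.zero_le n) hy.1.1, (hZi.iff _ _).1 hy.2⟩

omit [MeasurableConstSMul Γ X] in
lemma mul_of_le {f g : X → ℕ} (hf : Measurable f) (h : ∀ x, f x ≤ g x) (k : ℕ) :
    LE Γ (fun x => k * f x) (fun x => k * g x) := LE.mul k (LE.of_le hf h)

/-- D2 -/
lemma absorb_all {a : X → ℕ} {N : ℕ}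
    (h : LE Γ (fun x => (N + 1) * a x) (fun x => N * a x)) (ha : Measurable a) (k : ℕ) :
    LE Γ (fun x => k * a x) (fun x => N * a x) := by
  induction k with
  | zero => exact h.mono_left fun x => by simp
  | succ k ih =>
    have h1 := (ih.add (LE.refl (Γ := Γ) ha))
    have h2 : LE Γ (fun x => (k + 1) * a x) (fun x => (N + 1) * a x) := by
      simpa only [add_mul, one_mul] using h1
    exact h2.trans h

/-- union step for D3 -/
lemma union_step [Countable Γ] {A P Q : Set X} (hP : MeasurableSet P)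
    (hQ : MeasurableSet Q) {n : ℕ} (h1 : LE Γ (fun x => 2 * n * ind P x) (ind A))
    (h2 : LE Γ (fun x => 2 * n * ind Q x) (ind A)) :
    LE Γ (fun x => n * ind (P ∪ Q) x) (ind A) := by
  have main : ∀ (P Q W : Set X), MeasurableSet P → MeasurableSet Q → MeasurableSet W → Inv Γ W →
      LE Γ (ind (P ∩ W)) (ind (Q ∩ W)) → LE Γ (fun x => 2 * n * ind Q x) (ind A) →
      LE Γ (fun x => n * ind ((P ∪ Q) ∩ W) x) (ind (A ∩ W)) := by
    intro P Q W hP hQ hW hWi hPQ hQA
    have e1 : LE Γ (fun x => n * ind ((P ∪ Q) ∩ W) x)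
        (fun x => n * (ind (P ∩ W) x + ind (Q ∩ W) x)) := by
      refine mul_of_le (measurable_ind ((hP.union hQ).inter hW)) (fun x => ?_) n
      by_cases hx : x ∈ P <;> by_cases hx' : x ∈ Q <;> by_cases hw : x ∈ W <;>
        simp [ind, hx, hx', hw]
    have e2 : LE Γ (fun x => n * (ind (P ∩ W) x + ind (Q ∩ W) x))
        (fun x => n * (ind (Q ∩ W) x + ind (Q ∩ W) x)) :=
      LE.mul n (hPQ.add (LE.refl (measurable_ind (hQ.inter hW))))
    have e3 : (fun x => n * (ind (Q ∩ W) x + ind (Q ∩ W) x)) =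
        fun x => ind W x * (2 * n * ind Q x) := by
      funext x
      by_cases hx' : x ∈ Q <;> by_cases hw : x ∈ W <;> simp [ind, hx', hw]
      ring
    have e4 := hQA.restrict hWi hW
    have e5 : (fun x => ind W x * ind A x) = ind (A ∩ W) := by
      funext x
      by_cases hx' : x ∈ A <;> by_cases hw : x ∈ W <;> simp [ind, hx', hw]
    rw [e5] at e4
    rw [e3] at e2
    exact (e1.trans e2).trans e4
  obtain ⟨Z, hZm, hZi, hc1, hc2⟩ := comparison (Γ := Γ) hP hQ
  have m1 := main P Q Zᶜ hP hQ hZm.compl hZi.compl hc1 h2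
  have m2 := main Q P Z hQ hP hZm hZi hc2 h1
  have m3 := m1.add m2
  have e1 : (fun x => n * ind ((P ∪ Q) ∩ Zᶜ) x + n * ind ((Q ∪ P) ∩ Z) x) =
      fun x => n * ind (P ∪ Q) x := by
    funext x
    by_cases hx : x ∈ P <;> by_cases hx' : x ∈ Q <;> by_cases hw : x ∈ Z <;>
      simp [ind, hx, hx', hw]
  have e2 : (fun x => ind (A ∩ Zᶜ) x + ind (A ∩ Z) x) = ind A := by
    funext x
    by_cases hx : x ∈ A <;> by_cases hw : x ∈ Z <;> simp [ind, hx, hw]
  rw [e1, e2] at m3
  exact m3

lemma union_many [Countable Γ] {A : Set X} (P : ℕ → Set X)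
    (hP : ∀ l, MeasurableSet (P l)) (N : ℕ) : ∀ M : ℕ,
    (∀ l < N, LE Γ (fun x => 2 ^ N * M * ind (P l) x) (ind A)) →
    LE Γ (fun x => M * ind (⋃ l ∈ Finset.range N, P l) x) (ind A) := by
  induction N with
  | zero =>
    intro M _
    refine LE.of_le (measurable_const.mul (measurable_ind ?_)) fun x => ?_
    · simp
    · simp [ind]
  | succ N ih =>
    intro M hM
    have h1 := ih (2 * M) fun l hl => by
      have := hM l (by omega)
      have e : (fun x => 2 ^ N * (2 * M) * ind (P l) x) =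
          fun x => 2 ^ (N + 1) * M * ind (P l) x := by
        funext x; ring
      rw [e]; exact this
    have h2 : LE Γ (fun x => 2 * M * ind (P N) x) (ind A) := by
      refine (hM N (by omega)).mono_left fun x => ?_
      have : 1 ≤ 2 ^ N := Nat.one_le_two_pow
      have h3 : 2 * M * ind (P N) x * 1 ≤ 2 * M * ind (P N) x * 2 ^ N := Nat.mul_le_mul_left _ this
      calc 2 * M * ind (P N) x = 2 * M * ind (P N) x * 1 := by ring
        _ ≤ _ := h3
        _ = _ := by ring
    have h3 := union_step (Finset.measurableSet_biUnion _ fun l _ => hP l) (hP N) h1 h2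
    have e : (⋃ l ∈ Finset.range (N + 1), P l) = (⋃ l ∈ Finset.range N, P l) ∪ P N := by
      rw [Finset.range_add_one, Finset.set_biUnion_insert, union_comm]
    rw [e]; exact h3

/-- D3: if all multiples of `A` go into `N` copies of `A`, they go into `A`. -/
lemma absorb [Countable Γ] {A : Set X} {N : ℕ}
    (h : ∀ k : ℕ, LE Γ (fun x => k * ind A x) (fun x => N * ind A x)) (M : ℕ) :
    LE Γ (fun x => M * ind A x) (ind A) := by
  obtain ⟨P, γ, hP, hf, hg⟩ := h ((N + 1) * (2 ^ (N + 1) * M + 1))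
  set D : ℕ → Set X := fun n => γ n • P n with hD
  have hDm : ∀ n, MeasurableSet (D n) := fun n => (hP n).const_smul _
  have hg' : ∀ y, ∑' n, (ind (D n) y : ℝ≥0∞) ≤ (N + 1 : ℕ) := by
    intro y
    refine (hg y).trans ?_
    have h1 := ind_le_one A y
    have h2 : N * ind A y ≤ N + 1 := by nlinarith
    exact_mod_cast h2
  set Pl : ℕ → ℕ → Set X := fun l n => {x ∈ P n | rank D n (γ n • x) = l} with hPl
  have hPlm : ∀ l n, MeasurableSet (Pl l n) := fun l n =>
    (hP n).inter (measurableSet_eq_fun ((measurable_rank hDm n).comp (measurable_const_smul (γ n)))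
      measurable_const)
  have hmemPl : ∀ l n y, y ∈ γ n • Pl l n → y ∈ D n ∧ rank D n y = l := by
    intro l n y hy
    obtain ⟨x, hx, rfl⟩ := hy
    exact ⟨smul_mem_smul_set hx.1, hx.2⟩
  set W : ℕ → Set X := fun l =>
    {x | ((2 ^ (N + 1) * M : ℕ) : ℝ≥0∞) ≤ ∑' n, (ind (Pl l n) x : ℝ≥0∞)} with hW
  have hWm : ∀ l, MeasurableSet (W l) := by
    intro l
    refine measurableSet_le measurable_const ?_
    exact Measurable.tsum fun n => (measurable_from_top).comp (measurable_ind (hPlm l n))
  have h1 : ∀ l < N + 1, LE Γ (fun x => 2 ^ (N + 1) * M * ind (W l) x) (ind A) := by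
    intro l _
    refine ⟨Pl l, γ, hPlm l, ?_, ?_⟩
    · intro x
      beta_reduce
      by_cases hx : x ∈ W l
      · rw [ind_of_mem hx, mul_one]
        exact hx
      · rw [ind_of_notMem hx]; simp
    · intro y
      refine tsum_ind_le ?_ ?_
      · intro n m hn hm
        obtain ⟨hn1, hn2⟩ := hmemPl l n y hn
        obtain ⟨hm1, hm2⟩ := hmemPl l m y hm
        exact rank_inj hn1 hm1 (hn2.trans hm2.symm)
      · intro n hn
        obtain ⟨hn1, hn2⟩ := hmemPl l n y hn
        have h2 := (one_le_tsum_ind ⟨n, hn1⟩).trans (hg y)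
        have h3 : 1 ≤ N * ind A y := by exact_mod_cast h2
        refine mem_of_ind_pos ?_
        by_contra h4
        have h5 : ind A y = 0 := by omega
        rw [h5] at h3
        omega
  have h2 := union_many W hWm (N + 1) M h1
  refine h2.mono_left fun x => Nat.mul_le_mul_left _ ?_
  by_cases hx : x ∈ A
  · have h3 : ∃ l < N + 1, x ∈ W l := by
      by_contra hcon
      push Not at hcon
      have h4 : ∑ l ∈ Finset.range (N + 1), ∑' n, (ind (Pl l n) x : ℝ≥0∞) ≤
          ∑ l ∈ Finset.range (N + 1), ((2 ^ (N + 1) * M : ℕ) : ℝ≥0∞) := by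
        refine Finset.sum_le_sum fun l hl => ?_
        have := hcon l (Finset.mem_range.1 hl)
        exact le_of_lt (not_le.1 this)
      have h5 : ∑' n, (ind (P n) x : ℝ≥0∞) ≤
          ∑ l ∈ Finset.range (N + 1), ∑' n, (ind (Pl l n) x : ℝ≥0∞) := by
        have e1 : ∀ n, (ind (P n) x : ℝ≥0∞) ≤
            ∑ l ∈ Finset.range (N + 1), (ind (Pl l n) x : ℝ≥0∞) := by
          intro n
          by_cases hn : x ∈ P n
          · have h6 : rank D n (γ n • x) < N + 1 :=
              rank_lt (show γ n • x ∈ D n from smul_mem_smul_set hn) (hg' _)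
            refine le_trans ?_ (Finset.single_le_sum
              (f := fun l => (ind (Pl l n) x : ℝ≥0∞)) (fun i _ => zero_le)
              (Finset.mem_range.2 h6))
            have h7 : x ∈ Pl (rank D n (γ n • x)) n := ⟨hn, rfl⟩
            rw [ind_of_mem h7]
            exact_mod_cast ind_le_one _ _
          · rw [ind_of_notMem hn]; simp
        refine (ENNReal.tsum_le_tsum e1).trans ?_
        rw [Summable.tsum_finsetSum fun i _ => ENNReal.summable]
      have h6 := ((hf x).trans h5).trans h4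
      beta_reduce at h6
      rw [ind_of_mem hx, Finset.sum_const, Finset.card_range, nsmul_eq_mul] at h6
      have h7 : (N + 1) * (2 ^ (N + 1) * M + 1) * 1 ≤ (N + 1) * (2 ^ (N + 1) * M) := by
        exact_mod_cast h6
      nlinarith
    obtain ⟨l, hl, hxl⟩ := h3
    have h8 : x ∈ ⋃ l ∈ Finset.range (N + 1), W l :=
      mem_iUnion₂.2 ⟨l, Finset.mem_range.2 hl, hxl⟩
    rw [ind_of_mem hx, ind_of_mem h8]
  · rw [ind_of_notMem hx]; exact Nat.zero_le _

/-- D4 -/
lemma no_absorb {a : X → ℕ} (ha : Measurable a)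
    (hno : ∀ N : ℕ, ¬ LE Γ (fun x => (N + 1) * a x) (fun x => N * a x)) {h : X → ℕ}
    (hh : Measurable h) {M : ℕ} (hM : LE Γ h (fun x => M * a x)) (r : ℕ) :
    ¬ LE Γ (fun x => h x + (r + 1) * a x) (fun x => h x + r * a x) := by
  intro H
  have key : ∀ s : ℕ, LE Γ (fun x => h x + (r + s) * a x) (fun x => h x + r * a x) := by
    intro s
    induction s with
    | zero => exact LE.of_le (hh.add (measurable_const.mul ha)) fun x => by simp
    | succ s ih =>
      have h1 := ih.add (LE.refl (Γ := Γ) ha)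
      have e1 : (fun x => h x + (r + s) * a x + a x) = fun x => h x + (r + (s + 1)) * a x := by
        funext x; ring
      have e2 : (fun x => h x + r * a x + a x) = fun x => h x + (r + 1) * a x := by
        funext x; ring
      rw [e1, e2] at h1
      exact_mod_cast h1.trans H
  refine hno (M + r) ?_
  have h1 : LE Γ (fun x => (M + r + 1) * a x) (fun x => h x + r * a x) := by
    refine (key (M + 1)).mono_left fun x => ?_
    have : (M + r + 1) * a x = (r + (M + 1)) * a x := by ring
    rw [this]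
    exact Nat.le_add_left _ _
  have h2 : LE Γ (fun x => h x + r * a x) (fun x => M * a x + r * a x) :=
    hM.add (LE.refl (measurable_const.mul ha))
  have h3 := h1.trans h2
  have e1 : (fun x => M * a x + r * a x) = fun x => (M + r) * a x := by
    funext x; ring
  rw [e1] at h3
  exact_mod_cast h3

end H5eb
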