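import Pool.Agent.H5eb.EqCmp

/-!
Hahn Banach: if no multiple of `a` absorbs the next one, there is an additive monotone real
valued functional normalised at `a`. Then the dichotomy.
-/

open scoped Pointwise ENNReal
open MeasureTheory Set Function

namespace H5eb

variable (Γ : Type*) {X : Type*} [Group Γ] [MulAction Γ X] [MeasurableSpace X]

/-- functions dominated by a multiple of `a` -/
def Cls (a f : X → ℕ) : Prop := Measurable f ∧ ∃ M : ℕ, LE Γ f (fun x => M * a x)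

variable {Γ}

lemma Cls.zero {a : X → ℕ} : Cls Γ a (fun _ => 0) :=
  ⟨measurable_const, 0, LE.of_le measurable_const fun x => by simp⟩

lemma Cls.self {a : X → ℕ} (ha : Measurable a) : Cls Γ a a :=
  ⟨ha, 1, LE.of_le ha fun x => by simp⟩

lemma Cls.add {a f g : X → ℕ} (hf : Cls Γ a f) (hg : Cls Γ a g) :
    Cls Γ a (fun x => f x + g x) := by
  obtain ⟨hf, M, hM⟩ := hf
  obtain ⟨hg, N, hN⟩ := hg
  refine ⟨hf.add hg, M + N, ?_⟩
  simpa only [add_mul] using hM.add hN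

lemma Cls.mul {a f : X → ℕ} (hf : Cls Γ a f) (k : ℕ) : Cls Γ a (fun x => k * f x) := by
  obtain ⟨hf, M, hM⟩ := hf
  refine ⟨measurable_const.mul hf, k * M, ?_⟩
  simpa only [mul_assoc] using hM.mul k

/-- functions bounded by a member of the class -/
def dom (Γ : Type*) {X : Type*} [Group Γ] [MulAction Γ X] [MeasurableSpace X] (a : X → ℕ)
    (ha : Measurable a) : Submodule ℝ (X → ℝ) where
  carrier := {y | ∃ R, Cls Γ a R ∧ ∀ x, |y x| ≤ R x}
  add_mem' := by
    rintro y z ⟨R, hR, hy⟩ ⟨S, hS, hz⟩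
    refine ⟨_, hR.add hS, fun x => ?_⟩
    push_cast
    exact (abs_add_le _ _).trans (add_le_add (hy x) (hz x))
  zero_mem' := ⟨_, Cls.zero, fun x => by simp⟩
  smul_mem' := by
    rintro c y ⟨R, hR, hy⟩
    refine ⟨_, hR.mul ⌈|c|⌉₊, fun x => ?_⟩
    push_cast
    simp only [Pi.smul_apply, smul_eq_mul, abs_mul]
    exact mul_le_mul (Nat.le_ceil _) (hy x) (abs_nonneg _) (Nat.cast_nonneg _)

/-- the cone of almost positive elements -/
def cone (Γ : Type*) {X : Type*} [Group Γ] [MulAction Γ X] [MeasurableSpace X] (a : X → ℕ)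
    (ha : Measurable a) : PointedCone ℝ (dom Γ a ha) where
  carrier := {u | ∃ R, Cls Γ a R ∧ ∀ n : ℕ, ∃ F G, Cls Γ a F ∧ Cls Γ a G ∧ LE Γ F G ∧
    ∀ x, (G x : ℝ) - F x - R x ≤ n * (u : X → ℝ) x}
  add_mem' := by
    rintro u v ⟨R, hR, hu⟩ ⟨S, hS, hv⟩
    refine ⟨_, hR.add hS, fun n => ?_⟩
    obtain ⟨F, G, hF, hG, hFG, h⟩ := hu n
    obtain ⟨F', G', hF', hG', hFG', h'⟩ := hv n
    refine ⟨_, _, hF.add hF', hG.add hG', hFG.add hFG', fun x => ?_⟩
    have h1 := h x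
    have h2 := h' x
    push_cast
    simp only [Pi.add_apply]
    linarith
  zero_mem' := by
    refine ⟨_, Cls.zero, fun n => ⟨_, _, Cls.zero, Cls.zero, LE.refl measurable_const,
      fun x => ?_⟩⟩
    simp
  smul_mem' := by
    rintro ⟨c, hc⟩ u ⟨R, hR, hu⟩
    obtain ⟨F1, G1, hF1, hG1, hFG1, h1⟩ := hu 1
    refine ⟨_, (hR.mul 2).add hF1, fun n => ?_⟩
    obtain ⟨F, G, hF, hG, hFG, h⟩ := hu ⌊n * c⌋₊
    refine ⟨F, G, hF, hG, hFG, fun x => ?_⟩
    have e1 : ((((⟨c, hc⟩ : {c : ℝ // 0 ≤ c}) • u : dom Γ a ha) : X → ℝ) x) = c * (u : X → ℝ) x :=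
      rfl
    rw [e1]
    have h2 := h x
    have h3 := h1 x
    push_cast at h3 ⊢
    have h4 : (⌊(n : ℝ) * c⌋₊ : ℝ) ≤ n * c := Nat.floor_le (by positivity)
    have h5 : (n : ℝ) * c < ⌊(n : ℝ) * c⌋₊ + 1 := Nat.lt_floor_add_one _
    have h6 : (0 : ℝ) ≤ F1 x := Nat.cast_nonneg _
    have h7 : (0 : ℝ) ≤ G1 x := Nat.cast_nonneg _
    have h8 : (0 : ℝ) ≤ R x := Nat.cast_nonneg _
    set t : ℝ := n * c - ⌊(n : ℝ) * c⌋₊ with ht
    have h9 : 0 ≤ t := by linarith
    have h10 : t ≤ 1 := by linarith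
    have h11 : -(F1 x + R x : ℝ) ≤ t * (u : X → ℝ) x := by
      have : -(F1 x + R x : ℝ) ≤ (u : X → ℝ) x := by linarith
      nlinarith
    have h12 : (n : ℝ) * (c * (u : X → ℝ) x) =
        ⌊(n : ℝ) * c⌋₊ * (u : X → ℝ) x + t * (u : X → ℝ) x := by
      rw [ht]; ring
    rw [h12]
    linarith

variable [MeasurableConstSMul Γ X]

theorem exists_state {a : X → ℕ} (ha : Measurable a)
    (hno : ∀ N : ℕ, ¬ LE Γ (fun x => (N + 1) * a x) (fun x => N * a x)) :
    ∃ L : (X → ℕ) → ℝ, (∀ f g, Cls Γ a f → Cls Γ a g → L (fun x => f x + g x) = L f + L g) ∧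
      (∀ f g, Cls Γ a f → Cls Γ a g → LE Γ f g → L f ≤ L g) ∧ L a = 1 := by
  classical
  have hmem : ∀ f : X → ℕ, Cls Γ a f → (fun x => (f x : ℝ)) ∈ dom Γ a ha := fun f hf =>
    ⟨f, hf, fun x => by simp⟩
  set a' : dom Γ a ha := ⟨fun x => (a x : ℝ), hmem a (Cls.self ha)⟩ with ha'
  have ha0 : a' ≠ 0 := by
    intro h0
    refine hno 0 ?_
    have h1 : ∀ x, a x = 0 := by
      intro x
      have := congrArg (fun u : dom Γ a ha => (u : X → ℝ) x) h0
      simpa [ha'] using this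
    exact LE.of_le (measurable_const.mul ha) fun x => by simp [h1]
  have key : ∀ t : ℝ, t • a' ∈ cone Γ a ha → 0 ≤ t := by
    rintro t ⟨R, hR, hu⟩
    by_contra hneg
    push Not at hneg
    obtain ⟨hRm, M, hM⟩ := hR
    obtain ⟨n, hn⟩ := exists_nat_gt ((M + 1) / (-t))
    have hn' : (M : ℝ) + 1 ≤ n * (-t) := by
      rw [div_lt_iff₀ (by linarith)] at hn
      exact hn.le
    obtain ⟨F, G, hF, hG, hFG, h⟩ := hu n
    obtain ⟨hGm, K, hK⟩ := hG
    refine no_absorb ha hno hGm hK M ?_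
    have h1 : LE Γ (fun x => G x + (M + 1) * a x) (fun x => F x + R x) := by
      refine LE.of_le (hGm.add (measurable_const.mul ha)) fun x => ?_
      have h2 := h x
      have e : ((t • a' : dom Γ a ha) : X → ℝ) x = t * a x := rfl
      rw [e] at h2
      have h3 : (0 : ℝ) ≤ a x := Nat.cast_nonneg _
      have h4 : ((M : ℝ) + 1) * a x ≤ n * (-t) * a x := mul_le_mul_of_nonneg_right hn' h3
      have h5 : (G x : ℝ) + (M + 1) * a x ≤ F x + R x := by nlinarith
      exact_mod_cast h5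
    exact h1.trans (hFG.add hM)
  set f0 : dom Γ a ha →ₗ.[ℝ] ℝ :=
    LinearPMap.mkSpanSingleton (K := ℝ) (L := ℝ) (σ := RingHom.id ℝ) a' (1 : ℝ) ha0 with hf0
  have hnonneg : ∀ x : f0.domain, (x : dom Γ a ha) ∈ cone Γ a ha → 0 ≤ f0 x := by
    rintro ⟨x, hx⟩ hxs
    obtain ⟨t, rfl⟩ := Submodule.mem_span_singleton.1 hx
    have h1 := key t hxs
    have e : f0 ⟨t • a', hx⟩ = t :=
      (LinearPMap.mkSpanSingleton'_apply a' (1 : ℝ) _ t hx).trans (by simp)
    rw [e]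
    exact h1
  have hdense : ∀ y : dom Γ a ha, ∃ x : f0.domain, (x : dom Γ a ha) + y ∈ cone Γ a ha := by
    intro y
    obtain ⟨R, hR, hy⟩ := y.2
    obtain ⟨hRm, M, hM⟩ := hR
    refine ⟨⟨(M : ℝ) • a', Submodule.smul_mem _ _ (Submodule.mem_span_singleton_self a')⟩, ?_⟩
    refine ⟨_, Cls.zero, fun n => ⟨_, _, (show Cls Γ a R from ⟨hRm, M, hM⟩).mul n,
      ((Cls.self ha).mul M).mul n, hM.mul n, fun x => ?_⟩⟩
    have h1 := hy x
    have h2 := neg_le_of_abs_le h1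
    have e : (((M : ℝ) • a' + y : dom Γ a ha) : X → ℝ) x = M * a x + (y : X → ℝ) x := rfl
    rw [e]
    push_cast
    have h3 : (0 : ℝ) ≤ n := Nat.cast_nonneg _
    nlinarith
  obtain ⟨g, hg1, hg2⟩ := riesz_extension (cone Γ a ha) f0 hnonneg hdense
  refine ⟨fun f => if h : Cls Γ a f then g ⟨fun x => (f x : ℝ), hmem f h⟩ else 0, ?_, ?_, ?_⟩
  · intro f1 f2 h1 h2
    simp only [dif_pos h1, dif_pos h2, dif_pos (h1.add h2)]
    rw [← map_add]
    congr 1
    ext x
    simp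
  · intro f1 f2 h1 h2 h12
    simp only [dif_pos h1, dif_pos h2]
    rw [← sub_nonneg, ← map_sub]
    apply hg2
    refine ⟨_, Cls.zero, fun n => ⟨_, _, h1.mul n, h2.mul n, h12.mul n, fun x => ?_⟩⟩
    simp only [Submodule.coe_sub, Pi.sub_apply]
    push_cast
    linarith
  · simp only [dif_pos (Cls.self (Γ := Γ) ha)]
    have h1 := hg1 ⟨a', Submodule.mem_span_singleton_self a'⟩
    exact h1.trans (LinearPMap.mkSpanSingleton_apply ℝ ℝ ha0 (1 : ℝ))

omit [MeasurableConstSMul Γ X] in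
lemma LE.pieces {V U : Set X} (hV : MeasurableSet V) (h : LE Γ (ind V) (ind U)) :
    ∃ (A : ℕ → Set X) (g : ℕ → Γ), (∀ i, MeasurableSet (A i)) ∧
      Pairwise (Function.onFun Disjoint A) ∧ (⋃ i, A i) = V ∧
      Pairwise (Function.onFun Disjoint fun i => g i • A i) ∧ ∀ i, g i • A i ⊆ U := by
  obtain ⟨P, γ, hP, hf, hg⟩ := h
  have hsub : ∀ n, disjointed (fun n => V ∩ P n) n ⊆ P n := fun n =>
    (disjointed_subset _ n).trans inter_subset_right
  have hone : ∀ y, ∑' n, (ind (γ n • P n) y : ℝ≥0∞) ≤ (1 : ℕ) := fun y =>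
    (hg y).trans (by exact_mod_cast ind_le_one U y)
  refine ⟨disjointed (fun n => V ∩ P n), γ, ?_, disjoint_disjointed _, ?_, ?_, ?_⟩
  · exact fun n => MeasurableSet.disjointed (fun n => hV.inter (hP n)) n
  · rw [iUnion_disjointed]
    refine Subset.antisymm (iUnion_subset fun n => inter_subset_left) fun x hx => ?_
    have h1 := hf x
    rw [ind_of_mem hx] at h1
    by_contra hcon
    have h2 : ∑' n, (ind (P n) x : ℝ≥0∞) = 0 := by
      rw [ENNReal.tsum_eq_zero]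
      intro n
      have : x ∉ P n := fun h' => hcon (mem_iUnion.2 ⟨n, hx, h'⟩)
      rw [ind_of_notMem this]; simp
    rw [h2] at h1
    simp at h1
  · intro n m hnm
    refine Set.disjoint_left.2 fun y hn hm => hnm ?_
    have hn' : y ∈ γ n • P n := smul_set_mono (hsub n) hn
    have hm' : y ∈ γ m • P m := smul_set_mono (hsub m) hm
    refine rank_inj (D := fun n => γ n • P n) hn' hm' ?_
    have h1 := rank_lt (D := fun n => γ n • P n) hn' (hone y)
    have h2 := rank_lt (D := fun n => γ n • P n) hm' (hone y)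
    omega
  · intro n y hn
    have hn' : y ∈ γ n • P n := smul_set_mono (hsub n) hn
    have h1 := (one_le_tsum_ind (D := fun n => γ n • P n) ⟨n, hn'⟩).trans (hg y)
    refine mem_of_ind_pos ?_
    exact_mod_cast h1

omit [MeasurableSpace X] [MeasurableConstSMul Γ X] in
lemma Inv.smul_inter {Z : Set X} (hZ : Inv Γ Z) (A : Set X) (γ : Γ) :
    γ • (A ∩ Z) = γ • A ∩ Z := by
  ext y
  rw [mem_inter_iff, mem_smul_set_iff_inv_smul_mem, mem_smul_set_iff_inv_smul_mem, mem_inter_iff,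
    hZ.iff]

omit [MeasurableConstSMul Γ X] in
/-- The dichotomy. -/
theorem dichotomy [Countable Γ] (hm : ∀ γ : Γ, Measurable (fun x : X => γ • x)) {V U : Set X}
    (hV : MeasurableSet V) (hU : MeasurableSet U)
    (hcov : ∃ F : Finset Γ, V ⊆ ⋃ γ ∈ F, γ • U) :
    (∃ (A : ℕ → Set X) (g : ℕ → Γ), (∀ i, MeasurableSet (A i)) ∧
      Pairwise (Function.onFun Disjoint A) ∧ (⋃ i, A i) = V ∧
      Pairwise (Function.onFun Disjoint fun i => g i • A i) ∧ ∀ i, g i • A i ⊆ U) ∨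
    (∃ m : Set X → ℝ≥0∞,
      (∀ A B, MeasurableSet A → MeasurableSet B → Disjoint A B → m (A ∪ B) = m A + m B) ∧
      (∀ (γ : Γ) A, MeasurableSet A → m (γ • A) = m A) ∧
      (∀ A B, MeasurableSet A → MeasurableSet B → A ⊆ B → m A ≤ m B) ∧ m U = 1 ∧ 1 ≤ m V) := by
  classical
  have : MeasurableConstSMul Γ X := ⟨hm⟩
  obtain ⟨Z, hZm, hZi, hc1, hc2⟩ := comparison (Γ := Γ) hV hU
  have ham : Measurable (ind (U ∩ Z)) := measurable_ind (hU.inter hZm)
  by_cases hno : ∀ N : ℕ, ¬ LE Γ (fun x => (N + 1) * ind (U ∩ Z) x) (fun x => N * ind (U ∩ Z) x)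
  · right
    obtain ⟨L, hL1, hL2, hL3⟩ := exists_state ham hno
    have hL0 : L (fun _ => 0) = 0 := by
      have := hL1 _ _ (Cls.zero (Γ := Γ) (a := ind (U ∩ Z))) Cls.zero
      simp only [add_zero] at this
      linarith
    have hLnn : ∀ f, Cls Γ (ind (U ∩ Z)) f → 0 ≤ L f := by
      intro f hf
      rw [← hL0]
      exact hL2 _ _ Cls.zero hf (LE.of_le measurable_const fun x => Nat.zero_le _)
    have hcls : ∀ A B : Set X, MeasurableSet A → LE Γ (ind A) (ind B) → Cls Γ (ind (U ∩ Z)) (ind B) →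
        Cls Γ (ind (U ∩ Z)) (ind A) := by
      rintro A B hA hAB ⟨_, M, hM⟩
      exact ⟨measurable_ind hA, M, hAB.trans hM⟩
    set m : Set X → ℝ≥0∞ := fun B =>
      if Cls Γ (ind (U ∩ Z)) (ind (B ∩ Z)) then ENNReal.ofReal (L (ind (B ∩ Z))) else ∞ with hmdef
    have hmle : ∀ A B : Set X, MeasurableSet A → MeasurableSet B →
        LE Γ (ind (A ∩ Z)) (ind (B ∩ Z)) → m A ≤ m B := by
      intro A B hA hB hAB
      by_cases h1 : Cls Γ (ind (U ∩ Z)) (ind (B ∩ Z))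
      · have h2 := hcls _ _ (hA.inter hZm) hAB h1
        simp only [hmdef, if_pos h1, if_pos h2]
        exact ENNReal.ofReal_le_ofReal (hL2 _ _ h2 h1 hAB)
      · simp only [hmdef, if_neg h1]
        exact le_top
    have hmono : ∀ A B : Set X, MeasurableSet A → A ⊆ B → LE Γ (ind (A ∩ Z)) (ind (B ∩ Z)) := by
      intro A B hA hAB
      refine LE.of_le (measurable_ind (hA.inter hZm)) fun x => ?_
      by_cases h1 : x ∈ A ∩ Z
      · rw [ind_of_mem h1, ind_of_mem (show x ∈ B ∩ Z from ⟨hAB h1.1, h1.2⟩)]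
      · rw [ind_of_notMem h1]; exact Nat.zero_le _
    refine ⟨m, ?_, ?_, ?_, ?_, ?_⟩
    · intro A B hA hB hdis
      have e1 : ind ((A ∪ B) ∩ Z) = fun x => ind (A ∩ Z) x + ind (B ∩ Z) x := by
        funext x
        by_cases hx : x ∈ A
        · have hx' : x ∉ B := fun h => Set.disjoint_left.1 hdis hx h
          by_cases hz : x ∈ Z <;> simp [ind, hx, hx', hz]
        · by_cases hx' : x ∈ B <;> by_cases hz : x ∈ Z <;> simp [ind, hx, hx', hz]
      by_cases h1 : Cls Γ (ind (U ∩ Z)) (ind (A ∩ Z))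
      · by_cases h2 : Cls Γ (ind (U ∩ Z)) (ind (B ∩ Z))
        · have h3 : Cls Γ (ind (U ∩ Z)) (ind ((A ∪ B) ∩ Z)) := by
            rw [e1]; exact h1.add h2
          simp only [hmdef, if_pos h1, if_pos h2, if_pos h3]
          rw [← ENNReal.ofReal_add (hLnn _ h1) (hLnn _ h2), e1, hL1 _ _ h1 h2]
        · have h3 : ¬ Cls Γ (ind (U ∩ Z)) (ind ((A ∪ B) ∩ Z)) := fun h3 =>
            h2 (hcls _ _ (hB.inter hZm) (hmono _ _ hB subset_union_right) h3)
          simp only [hmdef, if_neg h2, if_neg h3, add_top]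
      · have h3 : ¬ Cls Γ (ind (U ∩ Z)) (ind ((A ∪ B) ∩ Z)) := fun h3 =>
          h1 (hcls _ _ (hA.inter hZm) (hmono _ _ hA subset_union_left) h3)
        simp only [hmdef, if_neg h1, if_neg h3, top_add]
    · intro γ A hA
      have hA' : MeasurableSet (γ • A) := hA.const_smul γ
      have e : γ • A ∩ Z = γ • (A ∩ Z) := (hZi.smul_inter A γ).symm
      refine le_antisymm (hmle _ _ hA' hA ?_) (hmle _ _ hA hA' ?_)
      · rw [e]; exact LE.smul_left (hA.inter hZm) γ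
      · rw [e]; exact LE.smul_right (hA.inter hZm) γ
    · intro A B hA hB hAB
      exact hmle _ _ hA hB (hmono _ _ hA hAB)
    · simp only [hmdef, if_pos (Cls.self (Γ := Γ) ham), hL3, ENNReal.ofReal_one]
    · by_cases h1 : Cls Γ (ind (U ∩ Z)) (ind (V ∩ Z))
      · simp only [hmdef, if_pos h1]
        rw [ENNReal.one_le_ofReal, ← hL3]
        exact hL2 _ _ (Cls.self ham) h1 hc2
      · simp only [hmdef, if_neg h1]
        exact le_top
  · left
    push Not at hno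
    obtain ⟨N, hN⟩ := hno
    have h1 := absorb (fun k => absorb_all hN ham k)
    obtain ⟨F, hF⟩ := hcov
    have h2 : LE Γ (ind (V ∩ Z)) (fun x => ∑ γ ∈ F, ind (γ • (U ∩ Z)) x) := by
      refine LE.of_le (measurable_ind (hV.inter hZm)) fun x => ?_
      by_cases hx : x ∈ V ∩ Z
      · obtain ⟨γ, hγ, hxγ⟩ := mem_iUnion₂.1 (hF hx.1)
        have h3 : x ∈ γ • (U ∩ Z) := by
          rw [hZi.smul_inter]; exact ⟨hxγ, hx.2⟩
        rw [ind_of_mem hx, ← ind_of_mem h3]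
        exact Finset.single_le_sum (f := fun γ => ind (γ • (U ∩ Z)) x)
          (fun i _ => Nat.zero_le _) hγ
      · rw [ind_of_notMem hx]; exact Nat.zero_le _
    have h3 : LE Γ (fun x => ∑ γ ∈ F, ind (γ • (U ∩ Z)) x) (fun x => ∑ _γ ∈ F, ind (U ∩ Z) x) :=
      LE.sum F fun γ _ => LE.smul_left (hU.inter hZm) γ
    have e3 : (fun x => ∑ _γ ∈ F, ind (U ∩ Z) x) = fun x => F.card * ind (U ∩ Z) x := by
      funext x; simp
    rw [e3] at h3
    have h4 := (h2.trans h3).trans (h1 F.card)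
    have h5 := hc1.add h4
    have e4 : ∀ W : Set X, (fun x => ind (W \ Z) x + ind (W ∩ Z) x) = ind W := by
      intro W
      funext x
      by_cases hx : x ∈ W <;> by_cases hz : x ∈ Z <;> simp [ind, hx, hz]
    rw [e4, e4] at h5
    exact h5.pieces hV

end H5eb
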